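import Mathlib

/-!
Abstract core of the min-max theorem for incomplete splitting-off in digraphs.
-/

namespace Pool.Agent.H225R2

open Finset

variable {V : Type*} [Fintype V] [DecidableEq V]

/-- A nonempty proper subset of the ground set. -/
def NP (P : Finset V) : Prop := P.Nonempty ∧ P ≠ univ

/-- crossing supermodularity of a set function -/
def CrossSup (c : Finset V → ℤ) : Prop :=
  ∀ P Q : Finset V, (P ∩ Q).Nonempty → P ∪ Q ≠ univ → c P + c Q ≤ c (P ∩ Q) + c (P ∪ Q)

/-- a family of pairwise disjoint nonempty proper subsets -/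
def DisjFam (F : Finset (Finset V)) : Prop :=
  (∀ P ∈ F, NP P) ∧ (∀ P ∈ F, ∀ Q ∈ F, P ≠ Q → Disjoint P Q)

theorem sum_union_inter' (f : V → ℤ) (P Q : Finset V) :
    ∑ v ∈ P, f v + ∑ v ∈ Q, f v = ∑ v ∈ P ∩ Q, f v + ∑ v ∈ P ∪ Q, f v := by
  rw [← Finset.sum_union_inter]; ring

theorem sum_compl' (f : V → ℤ) (P : Finset V) :
    ∑ v ∈ Pᶜ, f v = ∑ v, f v - ∑ v ∈ P, f v := by
  have := Finset.sum_add_sum_compl P f
  linarith

/-- Maximal members of a family closed under intersecting unions. -/
theorem exists_max_family (T : Finset V → Prop)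
    (hT : ∀ P, T P → NP P)
    (hU : ∀ P Q, T P → T Q → (P ∩ Q).Nonempty → T (P ∪ Q)) :
    ∃ F : Finset (Finset V), DisjFam F ∧ (∀ P ∈ F, T P) ∧
      (∀ P, T P → ∃ Q ∈ F, P ⊆ Q) := by
  classical
  let F : Finset (Finset V) := univ.filter (fun P => T P ∧ ∀ Q, T Q → P ⊆ Q → Q = P)
  have hmax : ∀ P, T P → ∃ Q ∈ F, P ⊆ Q := by
    intro P hP
    obtain ⟨Q, hQ, hQm⟩ := Finset.exists_max_image (univ.filter (fun Q => T Q ∧ P ⊆ Q))
      (fun Q => Q.card) ⟨P, by simp [hP]⟩
    simp only [mem_filter, mem_univ, true_and] at hQ hQm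
    refine ⟨Q, ?_, hQ.2⟩
    simp only [F, mem_filter, mem_univ, true_and]
    refine ⟨hQ.1, fun R hR hQR => ?_⟩
    have := hQm R ⟨hR, hQ.2.trans hQR⟩
    exact (Finset.eq_of_subset_of_card_le hQR this).symm
  refine ⟨F, ⟨fun P hP => ?_, fun P hP Q hQ hPQ => ?_⟩, fun P hP => ?_, hmax⟩
  · simp only [F, mem_filter, mem_univ, true_and] at hP
    exact hT P hP.1
  · simp only [F, mem_filter, mem_univ, true_and] at hP hQ
    by_contra hd
    rw [Finset.not_disjoint_iff_nonempty_inter] at hd
    have hTU := hU P Q hP.1 hQ.1 hd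
    have h1 := hP.2 _ hTU subset_union_left
    have h2 := hQ.2 _ hTU subset_union_right
    exact hPQ (h1.symm.trans h2)
  · simp only [F, mem_filter, mem_univ, true_and] at hP
    exact hP.1

theorem sum_family (F : Finset (Finset V)) (hF : DisjFam F) (f : V → ℤ) :
    ∑ P ∈ F, ∑ v ∈ P, f v = ∑ v ∈ F.biUnion id, f v := by
  rw [Finset.sum_biUnion]
  · rfl
  · intro P hP Q hQ hPQ
    exact hF.2 P hP Q hQ hPQ

theorem sum_sub_single (y : V → ℤ) (v : V) (P : Finset V) :
    ∑ x ∈ P, (y x - if x = v then 1 else 0) = ∑ x ∈ P, y x - (if v ∈ P then 1 else 0) := by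
  rw [Finset.sum_sub_distrib]
  congr 1
  rw [Finset.sum_ite_eq' P v]

theorem sum_add_single (y : V → ℤ) (v : V) (P : Finset V) :
    ∑ x ∈ P, (y x + if x = v then 1 else 0) = ∑ x ∈ P, y x + (if v ∈ P then 1 else 0) := by
  rw [Finset.sum_add_distrib]
  congr 1
  rw [Finset.sum_ite_eq' P v]

/-- Reduction lemma. -/
theorem reduction (c : Finset V → ℤ) (hc : CrossSup c) (N : ℤ) (hN : 0 ≤ N)
    (hα : ∀ P Q, NP P → NP Q → (P ∩ Q).Nonempty → P ∪ Q = univ → c P + c Q ≤ N)
    (hβ : ∀ F : Finset (Finset V), DisjFam F → ∑ P ∈ F, c P ≤ N) :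
    ∀ (n : ℕ) (y0 : V → ℤ), (∀ v, 0 ≤ y0 v) → (∀ P, NP P → c P ≤ ∑ v ∈ P, y0 v) →
      (∑ v, y0 v = N + n) →
      ∃ y : V → ℤ, (∀ v, 0 ≤ y v) ∧ (∀ v, y v ≤ y0 v) ∧ ∑ v, y v = N ∧
        (∀ P, NP P → c P ≤ ∑ v ∈ P, y v) := by
  intro n
  induction n with
  | zero =>
    intro y0 h0 h1 h2
    exact ⟨y0, h0, fun v => le_rfl, by simpa using h2, h1⟩
  | succ n ih =>
    intro y0 h0 h1 h2
    by_cases hgood : ∃ v, 0 < y0 v ∧ ∀ P, NP P → v ∈ P → c P < ∑ v ∈ P, y0 v
    · obtain ⟨v, hv, hvP⟩ := hgood
      obtain ⟨y, hy0, hy1, hy2, hy3⟩ := ih (fun x => y0 x - if x = v then 1 else 0)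
        (by
          intro x
          by_cases hx : x = v
          · subst hx; simp; omega
          · simp [hx, h0 x])
        (by
          intro P hP
          rw [sum_sub_single]
          by_cases hvm : v ∈ P
          · have := hvP P hP hvm
            simp [hvm]; omega
          · simp [hvm, h1 P hP])
        (by
          rw [sum_sub_single]
          simp only [mem_univ, if_true, h2]
          push_cast
          ring)
      refine ⟨y, hy0, fun x => (hy1 x).trans ?_, hy2, hy3⟩
      show y0 x - (if x = v then 1 else 0) ≤ y0 x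
      split_ifs <;> omega
    · exfalso
      push Not at hgood
      -- tight sets
      let T : Finset V → Prop := fun P => NP P ∧ ∑ v ∈ P, y0 v = c P
      have hTU : ∀ P Q, T P → T Q → (P ∩ Q).Nonempty → T (P ∪ Q) := by
        intro P Q hP hQ hPQ
        by_cases hu : P ∪ Q = univ
        · exfalso
          have h3 := hα P Q hP.1 hQ.1 hPQ hu
          have h4 := sum_union_inter' y0 P Q
          rw [hP.2, hQ.2, hu, h2] at h4
          have h5 : 0 ≤ ∑ v ∈ P ∩ Q, y0 v := Finset.sum_nonneg (fun v _ => h0 v)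
          push_cast at h4
          omega
        · have h3 := hc P Q hPQ hu
          have h4 := sum_union_inter' y0 P Q
          have hn1 : NP (P ∩ Q) := ⟨hPQ, fun h => hP.1.2 (by
            apply Finset.eq_univ_of_forall
            intro x
            have : x ∈ P ∩ Q := by rw [h]; exact mem_univ x
            exact (mem_inter.1 this).1)⟩
          have hn2 : NP (P ∪ Q) := ⟨hP.1.1.mono subset_union_left, hu⟩
          have h5 := h1 _ hn1
          have h6 := h1 _ hn2
          refine ⟨hn2, ?_⟩
          rw [hP.2, hQ.2] at h4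
          omega
      obtain ⟨F, hF, hFT, hFmax⟩ := exists_max_family T (fun P h => h.1) hTU
      have h3 := hβ F hF
      have h4 : ∑ P ∈ F, c P = ∑ P ∈ F, ∑ v ∈ P, y0 v :=
        Finset.sum_congr rfl (fun P hP => (hFT P hP).2.symm)
      rw [h4, sum_family F hF] at h3
      have h5 : ∑ v ∈ F.biUnion id, y0 v = ∑ v, y0 v := by
        apply Finset.sum_subset (subset_univ _)
        intro v _ hv
        by_contra hne
        have hpos : 0 < y0 v := lt_of_le_of_ne (h0 v) (Ne.symm hne)
        obtain ⟨P, hP, hvP, hle⟩ := hgood v hpos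
        have hTP : T P := ⟨hP, le_antisymm hle (h1 P hP)⟩
        obtain ⟨Q, hQ, hPQ⟩ := hFmax P hTP
        exact hv (mem_biUnion.2 ⟨Q, hQ, hPQ hvP⟩)
      rw [h5, h2] at h3
      push_cast at h3
      omega

theorem np_inter {P Q : Finset V} (hP : NP P) (hPQ : (P ∩ Q).Nonempty) : NP (P ∩ Q) :=
  ⟨hPQ, fun h => hP.2 (by
    apply Finset.eq_univ_of_forall
    intro x
    have : x ∈ P ∩ Q := by rw [h]; exact mem_univ x
    exact (mem_inter.1 this).1)⟩

theorem np_union {P Q : Finset V} (hP : NP P) (hu : P ∪ Q ≠ univ) : NP (P ∪ Q) :=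
  ⟨hP.1.mono subset_union_left, hu⟩

theorem np_compl {P : Finset V} (hP : NP P) : NP Pᶜ := by
  refine ⟨?_, ?_⟩
  · rw [Finset.nonempty_iff_ne_empty]
    intro h
    exact hP.2 (by rwa [Finset.compl_eq_empty_iff] at h)
  · intro h
    rw [Finset.compl_eq_univ_iff] at h
    exact hP.1.ne_empty h

/-- sum over complements when the union is everything -/
theorem compl_sum_le (o : V → ℤ) (ho : ∀ v, 0 ≤ o v) {P Q : Finset V} (hu : P ∪ Q = univ) :
    ∑ v ∈ Pᶜ, o v + ∑ v ∈ Qᶜ, o v = ∑ v, o v - ∑ v ∈ P ∩ Q, o v := by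
  have h := sum_union_inter' o P Q
  rw [hu] at h
  rw [sum_compl', sum_compl']
  linarith

/-- Stage 1: choose the leaving arcs that stay, together with a fractional witness. -/
theorem stage1 (a : Finset V → ℤ) (ha : CrossSup a) (o : V → ℤ) (ho0 : ∀ v, 0 ≤ o v)
    (ho : ∀ P, NP P → a P ≤ ∑ v ∈ Pᶜ, o v) (m : ℤ) (hm0 : 0 ≤ m) (hmo : m ≤ ∑ v, o v)
    (h1 : ∀ F : Finset (Finset V), DisjFam F →
      ((F.card : ℤ) - 1) * m ≤ ∑ P ∈ F, (∑ v, o v - a P))
    (h2 : ∀ F : Finset (Finset V), DisjFam F →
      ((F.card : ℤ) - 2) * m ≤ ∑ P ∈ F, (∑ v ∈ Pᶜ, o v - a P)) :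
    ∀ n : ℕ, (n : ℤ) ≤ ∑ v, o v - m → ∃ y l : V → ℤ, (∀ v, 0 ≤ y v) ∧ ∑ v, y v = m ∧
      (∀ v, 0 ≤ l v) ∧ (∀ v, l v ≤ o v) ∧ ∑ v, l v = n ∧
      (∀ P, NP P → a P - (∑ v, o v - m) ≤ ∑ v ∈ P, y v - ∑ v ∈ P, l v) := by
  classical
  set O := ∑ v, o v with hO
  intro n
  induction n with
  | zero =>
    intro _
    -- reduction from a huge vector
    have hc : CrossSup (fun P => a P - (O - m)) := by
      intro P Q h3 h4
      have := ha P Q h3 h4
      simp only
      omega
    -- a bound for all values
    obtain ⟨B, hB0, hB⟩ : ∃ B : ℕ, m ≤ B ∧ ∀ P, a P - (O - m) ≤ B := by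
      refine ⟨m.toNat + ∑ P : Finset V, (a P - (O - m)).toNat, ?_, ?_⟩
      · push_cast
        have : (0:ℤ) ≤ ∑ P : Finset V, ((a P - (O - m)).toNat : ℤ) :=
          Finset.sum_nonneg (fun _ _ => by positivity)
        have h5 := Int.self_le_toNat m
        push_cast at this
        omega
      · intro P
        have h5 := Int.self_le_toNat (a P - (O - m))
        have h6 : (a P - (O - m)).toNat ≤ ∑ P : Finset V, (a P - (O - m)).toNat :=
          Finset.single_le_sum (f := fun P : Finset V => (a P - (O - m)).toNat)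
            (fun _ _ => Nat.zero_le _) (mem_univ P)
        push_cast
        have h7 : ((a P - (O - m)).toNat : ℤ) ≤ ((∑ P : Finset V, (a P - (O - m)).toNat : ℕ) : ℤ) := by
          exact_mod_cast h6
        push_cast at h7
        have : (0:ℤ) ≤ (m.toNat : ℤ) := by positivity
        omega
    have hnonneg : ∀ P : Finset V, P.Nonempty → (B : ℤ) ≤ ∑ v ∈ P, (B : ℤ) := by
      intro P hP
      rw [Finset.sum_const, nsmul_eq_mul]
      have : 1 ≤ P.card := hP.card_pos
      nlinarith [(by exact_mod_cast this : (1:ℤ) ≤ P.card), (by positivity : (0:ℤ) ≤ B)]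
    by_cases hV : (univ : Finset V).Nonempty
    · obtain ⟨y, hy0, hy1, hy2, hy3⟩ := reduction (fun P => a P - (O - m)) hc m hm0
        (by
          intro P Q hP hQ hPQ hu
          have h3 := ho P hP
          have h4 := ho Q hQ
          have h5 := compl_sum_le o ho0 hu
          have h6 : 0 ≤ ∑ v ∈ P ∩ Q, o v := Finset.sum_nonneg (fun v _ => ho0 v)
          rw [← hO] at h5
          omega)
        (by
          intro F hF
          have h3 := h1 F hF
          rw [Finset.sum_sub_distrib, Finset.sum_const, nsmul_eq_mul] at h3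
          simp only [Finset.sum_sub_distrib, Finset.sum_const, nsmul_eq_mul]
          linarith)
        (∑ v : V, (B : ℤ) - m).toNat (fun _ => (B : ℤ)) (fun _ => by positivity)
        (fun P hP => (hB P).trans (hnonneg P hP.1))
        (by
          have h3 := hnonneg univ hV
          have h4 : 0 ≤ ∑ v : V, (B : ℤ) - m := by omega
          rw [Int.toNat_of_nonneg h4]
          ring)
      refine ⟨y, fun _ => 0, hy0, hy2, fun _ => le_rfl, ho0, by simp, ?_⟩
      intro P hP
      have := hy3 P hP
      simp only [Finset.sum_const_zero]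
      omega
    · rw [Finset.not_nonempty_iff_eq_empty] at hV
      have hO0 : O = 0 := by rw [hO, hV]; simp
      have hm : m = 0 := by omega
      refine ⟨fun _ => 0, fun _ => 0, fun _ => le_rfl, by simp [hm], fun _ => le_rfl, ho0,
        by simp, ?_⟩
      intro P hP
      exfalso
      obtain ⟨x, hx⟩ := hP.1
      have : x ∈ (univ : Finset V) := mem_univ x
      rw [hV] at this
      exact absurd this (Finset.notMem_empty x)
  | succ n ih =>
    intro hn
    push_cast at hn
    obtain ⟨y, l, hy0, hym, hl0, hlo, hln, hP0⟩ := ih (by omega)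
    -- there is room
    obtain ⟨v₀, hv₀⟩ : ∃ v, l v < o v := by
      by_contra hcon
      push Not at hcon
      have : O ≤ ∑ v, l v := Finset.sum_le_sum (fun v _ => hcon v)
      omega
    let T : Finset V → Prop := fun P => NP P ∧ ∑ v ∈ P, y v - ∑ v ∈ P, l v = a P - (O - m)
    have hTU : ∀ P Q, T P → T Q → (P ∩ Q).Nonempty → T (P ∪ Q) := by
      intro P Q hP hQ hPQ
      have hy4 := sum_union_inter' y P Q
      have hl4 := sum_union_inter' l P Q
      by_cases hu : P ∪ Q = univ
      · exfalso
        have h3 := ho P hP.1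
        have h4 := ho Q hQ.1
        have h5 := compl_sum_le o ho0 hu
        rw [← hO] at h5
        have h6 : 0 ≤ ∑ v ∈ P ∩ Q, y v := Finset.sum_nonneg (fun v _ => hy0 v)
        have h7 : ∑ v ∈ P ∩ Q, l v ≤ ∑ v ∈ P ∩ Q, o v := Finset.sum_le_sum (fun v _ => hlo v)
        have h8 := hP.2
        have h9 := hQ.2
        rw [hu] at hy4 hl4
        omega
      · have h3 := ha P Q hPQ hu
        have hn1 := np_inter hP.1 hPQ
        have hn2 := np_union hP.1 hu
        have h5 := hP0 _ hn1
        have h6 := hP0 _ hn2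
        refine ⟨hn2, ?_⟩
        have h8 := hP.2
        have h9 := hQ.2
        omega
    obtain ⟨F, hF, hFT, hFmax⟩ := exists_max_family T (fun P h => h.1) hTU
    -- case 1: an increasable vertex outside all tight sets
    by_cases hc1 : ∃ v, l v < o v ∧ v ∉ F.biUnion id
    · obtain ⟨v, hv, hvF⟩ := hc1
      refine ⟨y, fun x => l x + if x = v then 1 else 0, hy0, hym, ?_, ?_, ?_, ?_⟩
      · intro x
        have := hl0 x
        show 0 ≤ l x + (if x = v then 1 else 0)
        split_ifs <;> omega
      · intro x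
        have := hlo x
        show l x + (if x = v then 1 else 0) ≤ o x
        split_ifs with h
        · subst h; omega
        · omega
      · rw [sum_add_single, hln]; simp
      · intro P hP
        rw [sum_add_single]
        by_cases hvP : v ∈ P
        · have hnt : ∑ v ∈ P, y v - ∑ v ∈ P, l v ≠ a P - (O - m) := by
            intro he
            obtain ⟨Q, hQ, hPQ⟩ := hFmax P ⟨hP, he⟩
            exact hvF (mem_biUnion.2 ⟨Q, hQ, hPQ hvP⟩)
          have := hP0 P hP
          simp only [hvP, if_true]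
          omega
        · have := hP0 P hP
          simp only [hvP, if_false]
          omega
    · push Not at hc1
      by_cases hc2 : ∃ w, 0 < y w ∧ w ∉ F.biUnion id
      · obtain ⟨w, hw, hwF⟩ := hc2
        refine ⟨fun x => (y x - if x = w then 1 else 0) + if x = v₀ then 1 else 0,
          fun x => l x + if x = v₀ then 1 else 0, ?_, ?_, ?_, ?_, ?_, ?_⟩
        · intro x
          have := hy0 x
          show 0 ≤ (y x - if x = w then 1 else 0) + if x = v₀ then 1 else 0
          by_cases hxw : x = w
          · subst hxw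
            simp only [if_true]
            split_ifs <;> omega
          · simp only [hxw, if_false]
            split_ifs <;> omega
        · rw [sum_add_single, sum_sub_single, hym]; simp
        · intro x
          have := hl0 x
          show 0 ≤ l x + (if x = v₀ then 1 else 0)
          split_ifs <;> omega
        · intro x
          have := hlo x
          show l x + (if x = v₀ then 1 else 0) ≤ o x
          split_ifs with h
          · subst h; omega
          · omega
        · rw [sum_add_single, hln]; simp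
        · intro P hP
          rw [sum_add_single, sum_add_single, sum_sub_single]
          have h3 := hP0 P hP
          by_cases hwP : w ∈ P
          · have hnt : ∑ v ∈ P, y v - ∑ v ∈ P, l v ≠ a P - (O - m) := by
              intro he
              obtain ⟨Q, hQ, hPQ⟩ := hFmax P ⟨hP, he⟩
              exact hwF (mem_biUnion.2 ⟨Q, hQ, hPQ hwP⟩)
            simp only [hwP, if_true]
            omega
          · simp only [hwP, if_false]
            omega
      · exfalso
        push Not at hc2
        -- all of y lives in U, l = o outside U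
        have hyU : ∑ v ∈ F.biUnion id, y v = m := by
          rw [← hym]
          apply Finset.sum_subset (subset_univ _)
          intro v _ hv
          by_contra hne
          exact hv (hc2 v (lt_of_le_of_ne (hy0 v) (Ne.symm hne)))
        have hlU : ∑ v ∈ (F.biUnion id)ᶜ, l v = ∑ v ∈ (F.biUnion id)ᶜ, o v := by
          apply Finset.sum_congr rfl
          intro v hv
          rw [mem_compl] at hv
          by_contra hne
          exact hv (hc1 v (lt_of_le_of_ne (hlo v) hne))
        rw [sum_compl', sum_compl'] at hlU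
        have h3 := h2 F hF
        have h4 : ∑ P ∈ F, a P = ∑ P ∈ F, (∑ v ∈ P, y v - ∑ v ∈ P, l v + (O - m)) := by
          apply Finset.sum_congr rfl
          intro P hP
          have := (hFT P hP).2
          omega
        rw [Finset.sum_add_distrib, Finset.sum_sub_distrib, sum_family F hF, sum_family F hF,
          Finset.sum_const, nsmul_eq_mul, hyU] at h4
        have h5 : ∑ P ∈ F, (∑ v ∈ Pᶜ, o v - a P)
            = (F.card : ℤ) * O - ∑ v ∈ F.biUnion id, o v - ∑ P ∈ F, a P := by
          rw [Finset.sum_sub_distrib]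
          congr 1
          rw [← sum_family F hF]
          have : ∀ P ∈ F, ∑ v ∈ Pᶜ, o v = O - ∑ v ∈ P, o v := fun P _ => sum_compl' o P
          rw [Finset.sum_congr rfl this, Finset.sum_sub_distrib, Finset.sum_const, nsmul_eq_mul]
        rw [h5, h4] at h3
        rw [← hO, hln] at hlU
        nlinarith

/-- Stage 2: given the leaving arcs that stay, choose the entering arcs to be split. -/
theorem stage2 (a : Finset V → ℤ) (ha : CrossSup a) (i o l : V → ℤ)
    (hi0 : ∀ v, 0 ≤ i v) (hl0 : ∀ v, 0 ≤ l v) (hlo : ∀ v, l v ≤ o v)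
    (hi : ∀ P, NP P → a P ≤ ∑ v ∈ P, i v)
    (ho : ∀ P, NP P → a P ≤ ∑ v ∈ Pᶜ, o v) (m : ℤ) (hm0 : 0 ≤ m)
    (hlm : ∑ v, l v = ∑ v, o v - m) (hio : ∑ v, o v ≤ ∑ v, i v)
    (y₀ : V → ℤ) (hy0 : ∀ v, 0 ≤ y₀ v) (hym : ∑ v, y₀ v = m)
    (hyP : ∀ P, NP P → a P ≤ ∑ v ∈ P, y₀ v + ∑ v ∈ Pᶜ, l v) :
    ∃ y : V → ℤ, (∀ v, 0 ≤ y v) ∧ (∀ v, y v ≤ i v) ∧ ∑ v, y v = m ∧
      (∀ P, NP P → a P ≤ ∑ v ∈ P, y v + ∑ v ∈ Pᶜ, l v) ∧
      (∀ P, NP P → a P ≤ (∑ v ∈ P, i v - ∑ v ∈ P, y v) + (∑ v ∈ Pᶜ, o v - ∑ v ∈ Pᶜ, l v)) := by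
  classical
  have ho0 : ∀ v, 0 ≤ o v := fun v => (hl0 v).trans (hlo v)
  have hℓ0 : 0 ≤ ∑ v, l v := Finset.sum_nonneg (fun v _ => hl0 v)
  -- modular complement sums
  have hcm : ∀ (f : V → ℤ) (P Q : Finset V),
      ∑ v ∈ Pᶜ, f v + ∑ v ∈ Qᶜ, f v = ∑ v ∈ (P ∩ Q)ᶜ, f v + ∑ v ∈ (P ∪ Q)ᶜ, f v := by
    intro f P Q
    have := sum_union_inter' f P Q
    rw [sum_compl', sum_compl', sum_compl', sum_compl']
    linarith
  have hcl : ∀ (f : V → ℤ), (∀ v, 0 ≤ f v) → ∀ P Q : Finset V, P ∪ Q = univ →
      ∑ v ∈ Pᶜ, f v + ∑ v ∈ Qᶜ, f v ≤ ∑ v, f v := by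
    intro f hf P Q hu
    have h1 := compl_sum_le f hf hu
    have h2 : 0 ≤ ∑ v ∈ P ∩ Q, f v := Finset.sum_nonneg (fun v _ => hf v)
    omega
  let z : V → ℤ := fun v => o v - l v
  have hz0 : ∀ v, 0 ≤ z v := fun v => sub_nonneg.2 (hlo v)
  have hzs : ∀ P : Finset V, ∑ v ∈ P, z v = ∑ v ∈ P, o v - ∑ v ∈ P, l v :=
    fun P => Finset.sum_sub_distrib _ _
  have hzm : ∑ v, z v = m := by rw [hzs]; omega
  -- set A : a solution of the first kind of constraints
  have hA : ∃ y : V → ℤ, (∀ v, 0 ≤ y v) ∧ (∀ v, y v ≤ i v) ∧ ∑ v, y v = m ∧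
      (∀ P, NP P → a P - ∑ v ∈ Pᶜ, l v ≤ ∑ v ∈ P, y v) := by
    refine reduction (fun P => a P - ∑ v ∈ Pᶜ, l v) ?_ m hm0 ?_ ?_ (∑ v, i v - m).toNat i hi0 ?_ ?_
    · intro P Q h3 h4
      have h5 := ha P Q h3 h4
      have h6 := hcm l P Q
      show a P - ∑ v ∈ Pᶜ, l v + (a Q - ∑ v ∈ Qᶜ, l v) ≤
        a (P ∩ Q) - ∑ v ∈ (P ∩ Q)ᶜ, l v + (a (P ∪ Q) - ∑ v ∈ (P ∪ Q)ᶜ, l v)
      omega
    · intro P Q hP hQ hPQ hu
      have h3 := ho P hP
      have h4 := ho Q hQ
      have h5 := hcl z hz0 P Q hu
      rw [hzs, hzs, hzm] at h5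
      show a P - ∑ v ∈ Pᶜ, l v + (a Q - ∑ v ∈ Qᶜ, l v) ≤ m
      omega
    · intro F hF
      have h3 : ∑ P ∈ F, (a P - ∑ v ∈ Pᶜ, l v) ≤ ∑ P ∈ F, ∑ v ∈ P, y₀ v := by
        apply Finset.sum_le_sum
        intro P hP
        have := hyP P (hF.1 P hP)
        omega
      rw [sum_family F hF] at h3
      have h4 : ∑ v ∈ F.biUnion id, y₀ v ≤ ∑ v, y₀ v :=
        Finset.sum_le_sum_of_subset_of_nonneg (subset_univ _) (fun v _ _ => hy0 v)
      omega
    · intro P hP
      have h3 := hi P hP
      have h4 : 0 ≤ ∑ v ∈ Pᶜ, l v := Finset.sum_nonneg (fun v _ => hl0 v)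
      show a P - ∑ v ∈ Pᶜ, l v ≤ _
      omega
    · rw [Int.toNat_of_nonneg (by omega)]
      ring
  -- set B : a solution of the second kind
  have hB : ∃ y : V → ℤ, (∀ v, 0 ≤ y v) ∧ (∀ v, y v ≤ i v) ∧ ∑ v, y v = ∑ v, i v - m ∧
      (∀ P, NP P → a P - ∑ v ∈ Pᶜ, z v ≤ ∑ v ∈ P, y v) := by
    refine reduction (fun P => a P - ∑ v ∈ Pᶜ, z v) ?_ (∑ v, i v - m) (by omega) ?_ ?_
      m.toNat i hi0 ?_ ?_
    · intro P Q h3 h4
      have h5 := ha P Q h3 h4
      have h6 := hcm z P Q
      show a P - ∑ v ∈ Pᶜ, z v + (a Q - ∑ v ∈ Qᶜ, z v) ≤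
        a (P ∩ Q) - ∑ v ∈ (P ∩ Q)ᶜ, z v + (a (P ∪ Q) - ∑ v ∈ (P ∪ Q)ᶜ, z v)
      omega
    · intro P Q hP hQ hPQ hu
      have h3 := ho P hP
      have h4 := ho Q hQ
      have h5 := hcl l hl0 P Q hu
      show a P - ∑ v ∈ Pᶜ, z v + (a Q - ∑ v ∈ Qᶜ, z v) ≤ _
      rw [hzs, hzs]
      omega
    · intro F hF
      show ∑ P ∈ F, (a P - ∑ v ∈ Pᶜ, z v) ≤ ∑ v, i v - m
      rcases Nat.lt_or_ge F.card 2 with hc | hc
      · rcases Nat.eq_zero_or_pos F.card with h0 | h0
        · rw [Finset.card_eq_zero] at h0
          rw [h0]; simp only [Finset.sum_empty]; omega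
        · have h1 : F.card = 1 := by omega
          obtain ⟨P, hPF⟩ := Finset.card_eq_one.1 h1
          rw [hPF, Finset.sum_singleton]
          have hP : NP P := hF.1 P (by rw [hPF]; exact mem_singleton_self P)
          have h3 := ho P hP
          rw [hzs]
          have h4 : ∑ v ∈ Pᶜ, l v ≤ ∑ v, l v :=
            Finset.sum_le_sum_of_subset_of_nonneg (subset_univ _) (fun v _ _ => hl0 v)
          omega
      · have h3 : ∑ P ∈ F, (a P - ∑ v ∈ Pᶜ, z v) ≤ ∑ P ∈ F, (∑ v ∈ P, i v - (m - ∑ v ∈ P, z v)) := by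
          apply Finset.sum_le_sum
          intro P hP
          have h4 := hi P (hF.1 P hP)
          have h5 := sum_compl' z P
          omega
        have h3' : ∑ P ∈ F, (∑ v ∈ P, i v - (m - ∑ v ∈ P, z v))
            = ∑ v ∈ F.biUnion id, i v - ((F.card : ℤ) * m - ∑ v ∈ F.biUnion id, z v) := by
          rw [Finset.sum_sub_distrib, Finset.sum_sub_distrib, sum_family F hF, sum_family F hF,
            Finset.sum_const, nsmul_eq_mul]
        rw [h3'] at h3
        have h4 : ∑ v ∈ F.biUnion id, i v ≤ ∑ v, i v :=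
          Finset.sum_le_sum_of_subset_of_nonneg (subset_univ _) (fun v _ _ => hi0 v)
        have h5 : ∑ v ∈ F.biUnion id, z v ≤ ∑ v, z v :=
          Finset.sum_le_sum_of_subset_of_nonneg (subset_univ _) (fun v _ _ => hz0 v)
        have h6 : (2:ℤ) ≤ F.card := by exact_mod_cast hc
        nlinarith
    · intro P hP
      have h3 := hi P hP
      have h4 : 0 ≤ ∑ v ∈ Pᶜ, z v := Finset.sum_nonneg (fun v _ => hz0 v)
      show a P - ∑ v ∈ Pᶜ, z v ≤ _
      omega
    · rw [Int.toNat_of_nonneg hm0]
      ring
  obtain ⟨yA, hA0, hAi, hAm, hAP⟩ := hA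
  obtain ⟨w, hw0, hwi, hwm, hwP⟩ := hB
  -- distance argument
  have key : ∀ (n : ℕ) (y y' : V → ℤ), (∀ v, 0 ≤ y v) → (∀ v, y v ≤ i v) → ∑ v, y v = m →
      (∀ P, NP P → a P ≤ ∑ v ∈ P, y v + ∑ v ∈ Pᶜ, l v) →
      (∀ v, 0 ≤ y' v) → (∀ v, y' v ≤ i v) → ∑ v, y' v = m →
      (∀ P, NP P → a P ≤ (∑ v ∈ P, i v - ∑ v ∈ P, y' v) + ∑ v ∈ Pᶜ, z v) →
      ∑ v, |y v - y' v| ≤ n →
      ∃ y : V → ℤ, (∀ v, 0 ≤ y v) ∧ (∀ v, y v ≤ i v) ∧ ∑ v, y v = m ∧
      (∀ P, NP P → a P ≤ ∑ v ∈ P, y v + ∑ v ∈ Pᶜ, l v) ∧
      (∀ P, NP P → a P ≤ (∑ v ∈ P, i v - ∑ v ∈ P, y v) + ∑ v ∈ Pᶜ, z v) := by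
    intro n
    induction n with
    | zero =>
      intro y y' h1 h2 h3 h4 h5 h6 h7 h8 h9
      have heq : y = y' := by
        have h10 : ∑ v, |y v - y' v| = 0 :=
          le_antisymm (by exact_mod_cast h9) (Finset.sum_nonneg (fun v _ => abs_nonneg _))
        rw [Finset.sum_eq_zero_iff_of_nonneg (fun v _ => abs_nonneg _)] at h10
        funext v
        have := h10 v (mem_univ v)
        rw [abs_eq_zero] at this
        omega
      subst heq
      exact ⟨y, h1, h2, h3, h4, h8⟩
    | succ n ih =>
      intro y y' h1 h2 h3 h4 h5 h6 h7 h8 h9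
      by_cases heq : ∀ v, y v ≤ y' v
      · -- then equal
        have h10 : ∑ v, (y' v - y v) = 0 := by rw [Finset.sum_sub_distrib]; omega
        rw [Finset.sum_eq_zero_iff_of_nonneg (fun v _ => sub_nonneg.2 (heq v))] at h10
        have : y = y' := by
          funext v
          have := h10 v (mem_univ v)
          omega
        subst this
        exact ⟨y, h1, h2, h3, h4, h8⟩
      · push Not at heq
        obtain ⟨v, hv⟩ := heq
        -- some w with y w < y' w
        obtain ⟨w₀, hw₀⟩ : ∃ w, y w < y' w := by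
          by_contra hcon
          push Not at hcon
          have : ∑ v, y' v < ∑ v, y v :=
            Finset.sum_lt_sum (fun x _ => hcon x) ⟨v, mem_univ v, hv⟩
          omega
        -- distance decreases
        have hdist1 : ∀ w, y w < y' w → ∑ x, |(y x - (if x = v then 1 else 0) + if x = w then 1 else 0) - y' x| ≤ n := by
          intro w hw
          have hvw : v ≠ w := by rintro rfl; omega
          have h10 : ∀ x, |(y x - (if x = v then 1 else 0) + if x = w then 1 else 0) - y' x|
              = |y x - y' x| - (if x = v then 1 else 0) - (if x = w then 1 else 0) := by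
            intro x
            by_cases hxv : x = v
            · subst hxv
              simp only [if_true, hvw, if_false]
              rw [abs_of_nonneg (by omega), abs_of_nonneg (by omega)]
              ring
            · by_cases hxw : x = w
              · subst hxw
                simp only [if_true, hxv, if_false]
                rw [abs_of_nonpos (by omega), abs_of_neg (by omega)]
                ring
              · simp [hxv, hxw]
          rw [Finset.sum_congr rfl (fun x _ => h10 x)]
          rw [sum_sub_single, sum_sub_single]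
          simp only [mem_univ, if_true]
          push_cast at h9
          omega
        have hdist2 : ∀ w, y w < y' w → ∑ x, |y x - (y' x + (if x = v then 1 else 0) - if x = w then 1 else 0)| ≤ n := by
          intro w hw
          have h10 := hdist1 w hw
          have h11 : ∀ x, |y x - (y' x + (if x = v then 1 else 0) - if x = w then 1 else 0)|
            = |(y x - (if x = v then 1 else 0) + if x = w then 1 else 0) - y' x| := by
            intro x; congr 1; ring
          rw [Finset.sum_congr rfl (fun x _ => h11 x)]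
          exact h10
        -- try the exchanges
        by_cases hex1 : ∃ w, y w < y' w ∧ ∀ P, NP P → v ∈ P → w ∉ P →
            a P < ∑ v ∈ P, y v + ∑ v ∈ Pᶜ, l v
        · obtain ⟨w, hw, hwP⟩ := hex1
          have hvw : v ≠ w := by rintro rfl; omega
          refine ih (fun x => y x - (if x = v then 1 else 0) + if x = w then 1 else 0) y' ?_ ?_ ?_ ?_
            h5 h6 h7 h8 (hdist1 w hw)
          · intro x
            show 0 ≤ y x - (if x = v then 1 else 0) + if x = w then 1 else 0
            have := h1 x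
            by_cases hxv : x = v
            · subst hxv
              have := h5 x
              simp only [if_true, hvw, if_false]; omega
            · simp only [hxv, if_false]; split_ifs <;> omega
          · intro x
            show y x - (if x = v then 1 else 0) + (if x = w then 1 else 0) ≤ i x
            have := h2 x
            by_cases hxw : x = w
            · subst hxw
              have := h6 x
              simp only [if_true, Ne.symm hvw, if_false]; omega
            · simp only [hxw, if_false]; split_ifs <;> omega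
          · rw [sum_add_single, sum_sub_single, h3]; simp
          · intro P hP
            rw [sum_add_single, sum_sub_single]
            have h10 := h4 P hP
            by_cases hvP : v ∈ P
            · by_cases hwP' : w ∈ P
              · simp only [hvP, hwP', if_true]; omega
              · have := hwP P hP hvP hwP'
                simp only [hvP, hwP', if_true, if_false]; omega
            · simp only [hvP, if_false]
              split_ifs <;> omega
        · by_cases hex2 : ∃ w, y w < y' w ∧ ∀ P, NP P → v ∈ P → w ∉ P →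
              a P < (∑ v ∈ P, i v - ∑ v ∈ P, y' v) + ∑ v ∈ Pᶜ, z v
          · obtain ⟨w, hw, hwP⟩ := hex2
            have hvw : v ≠ w := by rintro rfl; omega
            refine ih y (fun x => y' x + (if x = v then 1 else 0) - if x = w then 1 else 0) h1 h2 h3 h4
              ?_ ?_ ?_ ?_ (hdist2 w hw)
            · intro x
              show 0 ≤ y' x + (if x = v then 1 else 0) - if x = w then 1 else 0
              have := h5 x
              by_cases hxw : x = w
              · subst hxw
                have := h1 x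
                simp only [if_true, Ne.symm hvw, if_false]; omega
              · simp only [hxw, if_false]; split_ifs <;> omega
            · intro x
              show y' x + (if x = v then 1 else 0) - (if x = w then 1 else 0) ≤ i x
              have := h6 x
              by_cases hxv : x = v
              · subst hxv
                have := h2 x
                simp only [if_true, hvw, if_false]; omega
              · simp only [hxv, if_false]; split_ifs <;> omega
            · rw [sum_sub_single, sum_add_single, h7]; simp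
            · intro P hP
              rw [sum_sub_single, sum_add_single]
              have h10 := h8 P hP
              by_cases hvP : v ∈ P
              · by_cases hwP' : w ∈ P
                · simp only [hvP, hwP', if_true]; omega
                · have := hwP P hP hvP hwP'
                  simp only [hvP, hwP', if_true, if_false]; omega
              · simp only [hvP, if_false]
                split_ifs <;> omega
          · exfalso
            push Not at hex1 hex2
            -- tight sets containing v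
            obtain ⟨P₀, hP₀, hvP₀, hwP₀, htP₀⟩ := hex1 w₀ hw₀
            obtain ⟨Q, hQ, hvQ, hwQ, htQ⟩ := hex2 w₀ hw₀
            have hmin := Finset.exists_min_image
              (univ.filter (fun P : Finset V => NP P ∧ v ∈ P ∧ ∑ v ∈ P, y v + ∑ v ∈ Pᶜ, l v ≤ a P))
              (fun P => P.card) ⟨P₀, by simp [hP₀, hvP₀, htP₀]⟩
            obtain ⟨P, hPm, hPmin⟩ := hmin
            simp only [mem_filter, mem_univ, true_and] at hPm hPmin
            obtain ⟨hP, hvP, htP⟩ := hPm
            have hyv : 0 < y v := lt_of_le_of_lt (h5 v) hv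
            have hinter : ∀ P', NP P' → v ∈ P' → ∑ v ∈ P', y v + ∑ v ∈ P'ᶜ, l v ≤ a P' → P ⊆ P' := by
              intro P' hP' hvP' htP'
              have hne : (P ∩ P').Nonempty := ⟨v, mem_inter.2 ⟨hvP, hvP'⟩⟩
              have hy4 := sum_union_inter' y P P'
              have hl4 := hcm l P P'
              by_cases hu : P ∪ P' = univ
              · exfalso
                have h10 := ho P hP
                have h11 := ho P' hP'
                have h12 := hcl z hz0 P P' hu
                rw [hzs, hzs, hzm] at h12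
                rw [hu, h3] at hy4
                have h13 : 0 < ∑ v ∈ P ∩ P', y v :=
                  Finset.sum_pos' (fun x _ => h1 x) ⟨v, mem_inter.2 ⟨hvP, hvP'⟩, hyv⟩
                omega
              · have h10 := ha P P' hne hu
                have h11 := h4 _ (np_inter hP hne)
                have h12 := h4 _ (np_union hP hu)
                have h13 := hPmin (P ∩ P') ⟨np_inter hP hne, mem_inter.2 ⟨hvP, hvP'⟩, by omega⟩
                have h14 := Finset.eq_of_subset_of_card_le inter_subset_left h13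
                rw [← h14]
                exact inter_subset_right
            have hPD : ∀ w ∈ P, y' w ≤ y w := by
              intro w hw
              by_contra hcon
              push Not at hcon
              obtain ⟨P', hP', hvP', hwP', htP'⟩ := hex1 w hcon
              exact hwP' (hinter P' hP' hvP' htP' hw)
            have hwP : w₀ ∉ P := fun h => by have := hPD w₀ h; omega
            have hne : (P ∩ Q).Nonempty := ⟨v, mem_inter.2 ⟨hvP, hvQ⟩⟩
            have hu : P ∪ Q ≠ univ := by
              intro h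
              have : w₀ ∈ P ∪ Q := by rw [h]; exact mem_univ _
              rcases mem_union.1 this with h | h
              · exact hwP h
              · exact hwQ h
            have h10 := ha P Q hne hu
            have h11 := hi _ (np_inter hP hne)
            have h12 := ho _ (np_union hP hu)
            -- monotonicity of sums
            have h13 : ∑ v ∈ (P ∪ Q)ᶜ, l v ≤ ∑ v ∈ Pᶜ, l v :=
              Finset.sum_le_sum_of_subset_of_nonneg
                (Finset.compl_subset_compl.2 subset_union_left) (fun x _ _ => hl0 x)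
            have h14 : ∑ v ∈ (P ∪ Q)ᶜ, z v ≤ ∑ v ∈ Qᶜ, z v :=
              Finset.sum_le_sum_of_subset_of_nonneg
                (Finset.compl_subset_compl.2 subset_union_right) (fun x _ _ => hz0 x)
            have h15 : ∑ v ∈ P ∩ Q, y v ≤ ∑ v ∈ P, y v :=
              Finset.sum_le_sum_of_subset_of_nonneg inter_subset_left (fun x _ _ => h1 x)
            have h16 : ∑ v ∈ P ∩ Q, (i v - y' v) ≤ ∑ v ∈ Q, (i v - y' v) :=
              Finset.sum_le_sum_of_subset_of_nonneg inter_subset_right
                (fun x _ _ => sub_nonneg.2 (h6 x))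
            have h17 : ∑ v ∈ P ∩ Q, y' v < ∑ v ∈ P ∩ Q, y v :=
              Finset.sum_lt_sum (fun x hx => hPD x (mem_inter.1 hx).1)
                ⟨v, mem_inter.2 ⟨hvP, hvQ⟩, hv⟩
            rw [Finset.sum_sub_distrib, Finset.sum_sub_distrib] at h16
            have h18 := hzs (P ∪ Q)ᶜ
            omega
  have hfin := key (∑ v, |yA v - (i v - w v)|).toNat yA (fun v => i v - w v) hA0 hAi hAm
    (fun P hP => by have := hAP P hP; omega)
    (fun v => sub_nonneg.2 (hwi v))
    (fun v => by have := hw0 v; show i v - w v ≤ i v; omega)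
    (by rw [Finset.sum_sub_distrib]; omega)
    (fun P hP => by
      have := hwP P hP
      rw [Finset.sum_sub_distrib]
      omega)
    (by rw [Int.toNat_of_nonneg (Finset.sum_nonneg (fun v _ => abs_nonneg _))])
  obtain ⟨y, h1, h2, h3, h4, h5⟩ := hfin
  refine ⟨y, h1, h2, h3, h4, fun P hP => ?_⟩
  have := h5 P hP
  rwa [hzs] at this

/-- number of pairs of `F` leaving `P` -/
def crossCount (F : Multiset (V × V)) (P : Finset V) : ℕ :=
  F.countP (fun p => p.1 ∈ P ∧ p.2 ∉ P)

/-- number of pairs with tail `v` -/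
def tailCount (F : Multiset (V × V)) (v : V) : ℕ := F.countP (fun p => p.1 = v)

/-- number of pairs with head `v` -/
def headCount (F : Multiset (V × V)) (v : V) : ℕ := F.countP (fun p => p.2 = v)

/-- Stage 3: covering a crossing supermodular function by a directed graph with
prescribed in- and out-degrees. -/
theorem stage3 : ∀ (m : ℕ) (q : Finset V → ℤ), CrossSup q → ∀ (y z : V → ℤ),
    (∀ v, 0 ≤ y v) → (∀ v, 0 ≤ z v) → ∑ v, y v = m → ∑ v, z v = m →
    (∀ P, NP P → q P ≤ ∑ v ∈ P, y v) → (∀ P, NP P → q P ≤ ∑ v ∈ Pᶜ, z v) →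
    ∃ F : Multiset (V × V), F.card = m ∧ (∀ v, (tailCount F v : ℤ) = y v) ∧
      (∀ v, (headCount F v : ℤ) = z v) ∧ (∀ P, NP P → q P ≤ crossCount F P) := by
  classical
  intro m
  induction m with
  | zero =>
    intro q hq y z hy0 hz0 hym hzm h1 h2
    have hy : ∀ v, y v = 0 := by
      intro v
      have := (Finset.sum_eq_zero_iff_of_nonneg (fun v _ => hy0 v)).1 (by simpa using hym) v (mem_univ v)
      exact this
    have hz : ∀ v, z v = 0 := by
      intro v
      have := (Finset.sum_eq_zero_iff_of_nonneg (fun v _ => hz0 v)).1 (by simpa using hzm) v (mem_univ v)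
      exact this
    refine ⟨0, rfl, ?_, ?_, ?_⟩
    · intro v; simp [tailCount, hy v]
    · intro v; simp [headCount, hz v]
    · intro P hP
      have := h1 P hP
      simp only [hy, Finset.sum_const_zero] at this
      simpa [crossCount] using this
  | succ n ih =>
    intro q hq y z hy0 hz0 hym hzm h1 h2
    obtain ⟨u, hu⟩ : ∃ u, 0 < y u := by
      by_contra hcon
      push Not at hcon
      have : ∑ v, y v ≤ 0 := Finset.sum_nonpos (fun v _ => hcon v)
      rw [hym] at this
      push_cast at this
      omega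
    -- good partner
    have hgood : ∃ v, 0 < z v ∧ (∀ P, NP P → u ∈ P → v ∈ P → q P < ∑ x ∈ P, y x) ∧
        (∀ P, NP P → u ∉ P → v ∉ P → q P < ∑ x ∈ Pᶜ, z x) := by
      by_contra hcon
      push Not at hcon
      -- maximal tight set of the second kind
      have hT2 : ∃ A : Finset V, (A = ∅ ∨ (NP A ∧ u ∈ A ∧ ∑ x ∈ A, y x = q A)) ∧
          ∀ P, NP P → u ∈ P → ∑ x ∈ P, y x = q P → P ⊆ A := by
        by_cases hex : ∃ P, NP P ∧ u ∈ P ∧ ∑ x ∈ P, y x = q P
        · obtain ⟨P₀, hP₀⟩ := hex
          obtain ⟨A, hA, hAmax⟩ := Finset.exists_max_image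
            (univ.filter (fun P : Finset V => NP P ∧ u ∈ P ∧ ∑ x ∈ P, y x = q P))
            (fun P => P.card) ⟨P₀, by simp [hP₀]⟩
          simp only [mem_filter, mem_univ, true_and] at hA hAmax
          refine ⟨A, Or.inr hA, fun P hP huP htP => ?_⟩
          have hne : (A ∩ P).Nonempty := ⟨u, mem_inter.2 ⟨hA.2.1, huP⟩⟩
          have h3 := sum_union_inter' y A P
          have hup : 0 < ∑ x ∈ A ∩ P, y x :=
            Finset.sum_pos' (fun x _ => hy0 x) ⟨u, mem_inter.2 ⟨hA.2.1, huP⟩, hu⟩
          by_cases hun : A ∪ P = univ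
          · exfalso
            have h4 := h2 A hA.1
            have h5 := h2 P hP
            have h6 := compl_sum_le z hz0 hun
            have h7 : 0 ≤ ∑ v ∈ A ∩ P, z v := Finset.sum_nonneg (fun v _ => hz0 v)
            have h8 := hA.2.2
            rw [hun, hym] at h3
            rw [hzm] at h6
            omega
          · have h4 := hq A P hne hun
            have h5 := h1 _ (np_inter hA.1 hne)
            have h6 := h1 _ (np_union hA.1 hun)
            have h8 := hA.2.2
            have h9 := hAmax (A ∪ P) ⟨np_union hA.1 hun, mem_union_left _ hA.2.1, by omega⟩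
            have h10 := Finset.eq_of_subset_of_card_le subset_union_left h9
            rw [h10]
            exact subset_union_right
        · push Not at hex
          exact ⟨∅, Or.inl rfl, fun P hP huP htP => absurd htP (hex P hP huP)⟩
      -- maximal tight set of the first kind, in complemented form
      have hT1 : ∃ B : Finset V, (B = ∅ ∨ (NP B ∧ u ∈ B ∧ ∑ x ∈ B, z x = q Bᶜ)) ∧
          ∀ X, NP X → u ∈ X → ∑ x ∈ X, z x = q Xᶜ → X ⊆ B := by
        by_cases hex : ∃ P, NP P ∧ u ∈ P ∧ ∑ x ∈ P, z x = q Pᶜ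
        · obtain ⟨P₀, hP₀⟩ := hex
          obtain ⟨A, hA, hAmax⟩ := Finset.exists_max_image
            (univ.filter (fun P : Finset V => NP P ∧ u ∈ P ∧ ∑ x ∈ P, z x = q Pᶜ))
            (fun P => P.card) ⟨P₀, by simp [hP₀]⟩
          simp only [mem_filter, mem_univ, true_and] at hA hAmax
          refine ⟨A, Or.inr hA, fun P hP huP htP => ?_⟩
          have hne : (A ∩ P).Nonempty := ⟨u, mem_inter.2 ⟨hA.2.1, huP⟩⟩
          have h3 := sum_union_inter' z A P
          have hup : 0 < ∑ x ∈ A ∩ P, y x :=
            Finset.sum_pos' (fun x _ => hy0 x) ⟨u, mem_inter.2 ⟨hA.2.1, huP⟩, hu⟩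
          by_cases hun : A ∪ P = univ
          · exfalso
            have h4 := h1 Aᶜ (np_compl hA.1)
            have h5 := h1 Pᶜ (np_compl hP)
            have h6 := compl_sum_le y hy0 hun
            have h7 : 0 ≤ ∑ v ∈ A ∩ P, z v := Finset.sum_nonneg (fun v _ => hz0 v)
            have h8 := hA.2.2
            rw [hun, hzm] at h3
            rw [hym] at h6
            omega
          · have h4 := hq Aᶜ Pᶜ (by
                rw [← Finset.compl_union, Finset.nonempty_iff_ne_empty]
                intro h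
                exact hun (by rwa [Finset.compl_eq_empty_iff] at h))
              (by
                rw [← Finset.compl_inter]
                intro h
                rw [Finset.compl_eq_univ_iff] at h
                exact hne.ne_empty h)
            rw [← Finset.compl_union, ← Finset.compl_inter] at h4
            have h5 := h2 _ (np_compl (np_inter hA.1 hne))
            have h6 := h2 _ (np_compl (np_union hA.1 hun))
            rw [compl_compl] at h5 h6
            have h8 := hA.2.2
            have h9 := hAmax (A ∪ P) ⟨np_union hA.1 hun, mem_union_left _ hA.2.1, by omega⟩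
            have h10 := Finset.eq_of_subset_of_card_le subset_union_left h9
            rw [h10]
            exact subset_union_right
        · push Not at hex
          exact ⟨∅, Or.inl rfl, fun P hP huP htP => absurd htP (hex P hP huP)⟩
      obtain ⟨A, hA, hAmax⟩ := hT2
      obtain ⟨B, hB, hBmax⟩ := hT1
      -- support of z is in A ∪ B
      have hsupp : ∀ v, 0 < z v → v ∈ A ∪ B := by
        intro v hv
        by_cases h3 : ∀ P, NP P → u ∈ P → v ∈ P → q P < ∑ x ∈ P, y x
        · obtain ⟨P, hP, huP, hvP, hle⟩ := hcon v hv h3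
          have h4 := h2 P hP
          have h5 := hBmax Pᶜ (np_compl hP) (mem_compl.2 huP) (by rw [compl_compl]; omega)
          exact mem_union_right _ (h5 (mem_compl.2 hvP))
        · push Not at h3
          obtain ⟨P, hP, huP, hvP, hle⟩ := h3
          have h4 := h1 P hP
          exact mem_union_left _ (hAmax P hP huP (by omega) hvP)
      have hzAB : ∀ S : Finset V, A ∪ B ⊆ S → ∑ x ∈ S, z x = n + 1 := by
        intro S hS
        have : ∑ x ∈ S, z x = ∑ x, z x := by
          apply Finset.sum_subset (subset_univ _)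
          intro v _ hv
          by_contra hne
          exact hv (hS (hsupp v (lt_of_le_of_ne (hz0 v) (Ne.symm hne))))
        rw [this, hzm]; push_cast; ring
      have hyu : ∀ S : Finset V, u ∈ S → 0 < ∑ x ∈ S, y x := fun S hS =>
        Finset.sum_pos' (fun x _ => hy0 x) ⟨u, hS, hu⟩
      -- B ⊆ A impossible
      have hBA : (B \ A).Nonempty := by
        rw [Finset.nonempty_iff_ne_empty]
        intro h
        rw [Finset.sdiff_eq_empty_iff_subset] at h
        have h3 := hzAB A (by rw [union_subset_iff]; exact ⟨Subset.refl _, h⟩)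
        rcases hA with hA | ⟨hA1, hA2, hA3⟩
        · subst hA
          simp at h3
          omega
        · have h4 := h2 A hA1
          rw [sum_compl', hzm, h3] at h4
          have h5 := hyu A hA2
          push_cast at h4
          omega
      have hAB : (A \ B).Nonempty := by
        rw [Finset.nonempty_iff_ne_empty]
        intro h
        rw [Finset.sdiff_eq_empty_iff_subset] at h
        have h3 := hzAB B (by rw [union_subset_iff]; exact ⟨h, Subset.refl _⟩)
        rcases hB with hB | ⟨hB1, hB2, hB3⟩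
        · subst hB
          simp at h3
          omega
        · have h4 := h1 Bᶜ (np_compl hB1)
          rw [sum_compl', hym] at h4
          have h5 := hyu B hB2
          push_cast at h4
          omega
      rcases hA with hA | ⟨hA1, hA2, hA3⟩
      · subst hA
        simp at hAB
      rcases hB with hB | ⟨hB1, hB2, hB3⟩
      · subst hB
        simp at hBA
      have h3 := hq A Bᶜ (by rwa [← Finset.sdiff_eq_inter_compl]) (by
        intro h
        obtain ⟨x, hx⟩ := hBA
        have : x ∈ A ∪ Bᶜ := by rw [h]; exact mem_univ x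
        rw [mem_sdiff] at hx
        rcases mem_union.1 this with h | h
        · exact hx.2 h
        · exact (mem_compl.1 h) hx.1)
      have e1 : A ∩ Bᶜ = A \ B := (Finset.sdiff_eq_inter_compl A B).symm
      have e2 : A ∪ Bᶜ = (B \ A)ᶜ := by
        ext x
        simp only [mem_union, mem_compl, mem_sdiff]
        tauto
      rw [e1, e2] at h3
      have hn1 : NP (A \ B) := by
        rw [← e1]; exact np_inter hA1 (by rw [e1]; exact hAB)
      have hn2 : NP (B \ A) := by
        rw [Finset.sdiff_eq_inter_compl]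
        exact np_inter hB1 (by rw [← Finset.sdiff_eq_inter_compl]; exact hBA)
      have h4 := h1 _ hn1
      have h5 := h2 _ (np_compl hn2)
      rw [compl_compl] at h5
      have h6 := Finset.sum_inter_add_sum_sdiff A B y
      have h7 := Finset.sum_inter_add_sum_sdiff B A z
      have h8 := hyu (A ∩ B) (mem_inter.2 ⟨hA2, hB2⟩)
      have h9 : 0 ≤ ∑ x ∈ B ∩ A, z x := Finset.sum_nonneg (fun x _ => hz0 x)
      omega
    obtain ⟨v, hv, hg1, hg2⟩ := hgood
    obtain ⟨F, hF1, hF2, hF3, hF4⟩ := ih (fun P => q P - if u ∈ P ∧ v ∉ P then 1 else 0)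
      (by
        intro P Q h3 h4
        have h5 := hq P Q h3 h4
        show q P - (if u ∈ P ∧ v ∉ P then 1 else 0) + (q Q - if u ∈ Q ∧ v ∉ Q then 1 else 0) ≤
          q (P ∩ Q) - (if u ∈ P ∩ Q ∧ v ∉ P ∩ Q then 1 else 0) +
          (q (P ∪ Q) - if u ∈ P ∪ Q ∧ v ∉ P ∪ Q then 1 else 0)
        have h6 : (if u ∈ P ∩ Q ∧ v ∉ P ∩ Q then (1:ℤ) else 0) + (if u ∈ P ∪ Q ∧ v ∉ P ∪ Q then 1 else 0)
          ≤ (if u ∈ P ∧ v ∉ P then 1 else 0) + (if u ∈ Q ∧ v ∉ Q then 1 else 0) := by
          simp only [mem_inter, mem_union]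
          by_cases a1 : u ∈ P <;> by_cases a2 : v ∈ P <;> by_cases a3 : u ∈ Q <;>
            by_cases a4 : v ∈ Q <;> simp [a1, a2, a3, a4]
        omega)
      (fun x => y x - if x = u then 1 else 0) (fun x => z x - if x = v then 1 else 0)
      (by
        intro x
        have := hy0 x
        show 0 ≤ y x - if x = u then 1 else 0
        split_ifs with h
        · subst h; omega
        · omega)
      (by
        intro x
        have := hz0 x
        show 0 ≤ z x - if x = v then 1 else 0
        split_ifs with h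
        · subst h; omega
        · omega)
      (by rw [sum_sub_single, hym]; simp)
      (by rw [sum_sub_single, hzm]; simp)
      (by
        intro P hP
        rw [sum_sub_single]
        have h3 := h1 P hP
        by_cases huP : u ∈ P
        · by_cases hvP : v ∈ P
          · have := hg1 P hP huP hvP
            simp [huP, hvP]; omega
          · simp [huP, hvP]; omega
        · simp [huP]; omega)
      (by
        intro P hP
        rw [sum_sub_single]
        have h3 := h2 P hP
        by_cases hvP : v ∈ P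
        · simp [hvP]; omega
        · by_cases huP : u ∈ P
          · simp [huP, hvP]; omega
          · have := hg2 P hP huP hvP
            simp [huP, hvP]; omega)
    refine ⟨(u, v) ::ₘ F, by rw [Multiset.card_cons, hF1], ?_, ?_, ?_⟩
    · intro x
      have := hF2 x
      simp only [tailCount, Multiset.countP_cons] at this ⊢
      by_cases hx : u = x
      · subst hx; simp at this ⊢; omega
      · have hx' : ¬ x = u := fun h => hx h.symm
        simp [hx, hx'] at this ⊢; omega
    · intro x
      have := hF3 x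
      simp only [headCount, Multiset.countP_cons] at this ⊢
      by_cases hx : v = x
      · subst hx; simp at this ⊢; omega
      · have hx' : ¬ x = v := fun h => hx h.symm
        simp [hx, hx'] at this ⊢; omega
    · intro P hP
      have := hF4 P hP
      simp only [crossCount, Multiset.countP_cons] at this ⊢
      by_cases hx : u ∈ P ∧ v ∉ P
      · simp only [hx, and_self, not_false_eq_true, if_true] at this ⊢
        push_cast; omega
      · simp only [hx, if_false] at this ⊢
        push_cast; omega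

/-- number of pairs of `F` inside `P` -/
def insideCount (F : Multiset (V × V)) (P : Finset V) : ℕ :=
  F.countP (fun p => p.1 ∈ P ∧ p.2 ∈ P)

/-- number of pairs with tail in `P` -/
def tailIn (F : Multiset (V × V)) (P : Finset V) : ℕ := F.countP (fun p => p.1 ∈ P)

/-- number of pairs with head in `P` -/
def headIn (F : Multiset (V × V)) (P : Finset V) : ℕ := F.countP (fun p => p.2 ∈ P)

theorem tailIn_eq (F : Multiset (V × V)) (P : Finset V) :
    (tailIn F P : ℤ) = ∑ v ∈ P, (tailCount F v : ℤ) := by
  classical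
  induction F using Multiset.induction_on with
  | empty => simp [tailIn, tailCount]
  | cons p F ih =>
    simp only [tailIn, tailCount, Multiset.countP_cons] at ih ⊢
    push_cast
    rw [Finset.sum_add_distrib, ← ih, Finset.sum_ite_eq]

theorem headIn_eq (F : Multiset (V × V)) (P : Finset V) :
    (headIn F P : ℤ) = ∑ v ∈ P, (headCount F v : ℤ) := by
  classical
  induction F using Multiset.induction_on with
  | empty => simp [headIn, headCount]
  | cons p F ih =>
    simp only [headIn, headCount, Multiset.countP_cons] at ih ⊢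
    push_cast
    rw [Finset.sum_add_distrib, ← ih, Finset.sum_ite_eq]

theorem tailIn_split (F : Multiset (V × V)) (P : Finset V) :
    tailIn F P = insideCount F P + crossCount F P := by
  classical
  induction F using Multiset.induction_on with
  | empty => simp [tailIn, insideCount, crossCount]
  | cons p F ih =>
    simp only [tailIn, insideCount, crossCount, Multiset.countP_cons] at ih ⊢
    by_cases h1 : p.1 ∈ P <;> by_cases h2 : p.2 ∈ P <;> simp [h1, h2] <;> omega

theorem headIn_compl_split (F : Multiset (V × V)) (P : Finset V) :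
    headIn F Pᶜ = insideCount F Pᶜ + crossCount F P := by
  classical
  induction F using Multiset.induction_on with
  | empty => simp [headIn, insideCount, crossCount]
  | cons p F ih =>
    simp only [headIn, insideCount, crossCount, Multiset.countP_cons, mem_compl] at ih ⊢
    by_cases h1 : p.1 ∈ P <;> by_cases h2 : p.2 ∈ P <;> simp [h1, h2] <;> omega

/-- Sufficiency: the two families of inequalities give the required set of pairs. -/
theorem core_suff (a : Finset V → ℤ) (ha : CrossSup a) (i o : V → ℤ)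
    (hi0 : ∀ v, 0 ≤ i v) (ho0 : ∀ v, 0 ≤ o v)
    (hi : ∀ P, NP P → a P ≤ ∑ v ∈ P, i v)
    (ho : ∀ P, NP P → a P ≤ ∑ v ∈ Pᶜ, o v) (m : ℕ) (hmo : (m : ℤ) ≤ ∑ v, o v)
    (hio : ∑ v, o v ≤ ∑ v, i v)
    (h1 : ∀ F : Finset (Finset V), DisjFam F →
      ((F.card : ℤ) - 1) * m ≤ ∑ P ∈ F, (∑ v, o v - a P))
    (h2 : ∀ F : Finset (Finset V), DisjFam F →
      ((F.card : ℤ) - 2) * m ≤ ∑ P ∈ F, (∑ v ∈ Pᶜ, o v - a P)) :
    ∃ F : Multiset (V × V), F.card = m ∧ (∀ v, (tailCount F v : ℤ) ≤ i v) ∧
      (∀ v, (headCount F v : ℤ) ≤ o v) ∧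
      (∀ P, NP P → a P ≤ ∑ v ∈ P, i v - insideCount F P) ∧
      (∀ P, NP P → a P ≤ ∑ v ∈ Pᶜ, o v - insideCount F Pᶜ) := by
  classical
  obtain ⟨y₀, l, hy0, hym, hl0, hlo, hln, hP0⟩ := stage1 a ha o ho0 ho m (by positivity) hmo h1 h2
    (∑ v, o v - m).toNat (by rw [Int.toNat_of_nonneg (by omega)])
  rw [Int.toNat_of_nonneg (by omega)] at hln
  obtain ⟨y, hyy0, hyi, hyym, hyA, hyB⟩ := stage2 a ha i o l hi0 hl0 hlo hi ho m (by positivity)
    hln hio y₀ hy0 hym (fun P hP => by
      have := hP0 P hP
      have h3 := sum_compl' l P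
      omega)
  have hq : CrossSup (fun P => a P - min (∑ v ∈ P, (i v - y v)) (∑ v ∈ Pᶜ, l v)) := by
    intro P Q h3 h4
    have h5 := ha P Q h3 h4
    have h6 := sum_union_inter' (fun v => i v - y v) P Q
    have h7 : ∑ v ∈ Pᶜ, l v + ∑ v ∈ Qᶜ, l v = ∑ v ∈ (P ∩ Q)ᶜ, l v + ∑ v ∈ (P ∪ Q)ᶜ, l v := by
      have := sum_union_inter' l P Q
      rw [sum_compl', sum_compl', sum_compl', sum_compl']
      linarith
    have mono1 : ∀ S T : Finset V, S ⊆ T → ∑ v ∈ S, (i v - y v) ≤ ∑ v ∈ T, (i v - y v) :=
      fun S T hST => Finset.sum_le_sum_of_subset_of_nonneg hST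
        (fun x _ _ => sub_nonneg.2 (hyi x))
    have mono2 : ∀ S T : Finset V, S ⊆ T → ∑ v ∈ Tᶜ, l v ≤ ∑ v ∈ Sᶜ, l v :=
      fun S T hST => Finset.sum_le_sum_of_subset_of_nonneg
        (Finset.compl_subset_compl.2 hST) (fun x _ _ => hl0 x)
    have m1 := mono1 (P ∩ Q) P inter_subset_left
    have m2 := mono1 (P ∩ Q) Q inter_subset_right
    have m3 := mono2 P (P ∪ Q) subset_union_left
    have m4 := mono2 Q (P ∪ Q) subset_union_right
    simp only
    omega
  obtain ⟨F, hF1, hF2, hF3, hF4⟩ := stage3 m
    (fun P => a P - min (∑ v ∈ P, (i v - y v)) (∑ v ∈ Pᶜ, l v)) hq y (fun v => o v - l v)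
    hyy0 (fun v => sub_nonneg.2 (hlo v)) hyym (by rw [Finset.sum_sub_distrib]; omega)
    (by
      intro P hP
      have h3 := hi P hP
      have h4 := hyA P hP
      have h5 : ∑ v ∈ P, (i v - y v) = ∑ v ∈ P, i v - ∑ v ∈ P, y v := Finset.sum_sub_distrib _ _
      omega)
    (by
      intro P hP
      have h3 := ho P hP
      have h4 := hyB P hP
      have h5 : ∑ v ∈ P, (i v - y v) = ∑ v ∈ P, i v - ∑ v ∈ P, y v := Finset.sum_sub_distrib _ _
      have h6 : ∑ v ∈ Pᶜ, (o v - l v) = ∑ v ∈ Pᶜ, o v - ∑ v ∈ Pᶜ, l v := Finset.sum_sub_distrib _ _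
      omega)
  refine ⟨F, hF1, fun v => by rw [hF2]; exact hyi v,
    fun v => by rw [hF3]; have := hl0 v; omega, ?_, ?_⟩
  · intro P hP
    have h3 := hF4 P hP
    have h4 := tailIn_split F P
    have h5 := tailIn_eq F P
    have h6 : ∑ v ∈ P, (tailCount F v : ℤ) = ∑ v ∈ P, y v := Finset.sum_congr rfl (fun v _ => hF2 v)
    have h7 : ∑ v ∈ P, (i v - y v) = ∑ v ∈ P, i v - ∑ v ∈ P, y v := Finset.sum_sub_distrib _ _
    omega
  · intro P hP
    have h3 := hF4 P hP
    have h4 := headIn_compl_split F P
    have h5 := headIn_eq F Pᶜ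
    have h6 : ∑ v ∈ Pᶜ, (headCount F v : ℤ) = ∑ v ∈ Pᶜ, (o v - l v) :=
      Finset.sum_congr rfl (fun v _ => hF3 v)
    have h7 : ∑ v ∈ Pᶜ, (o v - l v) = ∑ v ∈ Pᶜ, o v - ∑ v ∈ Pᶜ, l v := Finset.sum_sub_distrib _ _
    omega

/-- counting: each vertex lies in at most one member of a disjoint family -/
theorem disj_count_le (K : Finset (Finset V)) (hK : DisjFam K) (u : V) :
    ∑ P ∈ K, (if u ∈ P then (1:ℤ) else 0) ≤ 1 := by
  classical
  rw [← Finset.sum_filter, Finset.sum_const, nsmul_eq_mul, mul_one]
  have : (K.filter (fun P => u ∈ P)).card ≤ 1 := by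
    rw [Finset.card_le_one]
    intro P hP Q hQ
    rw [mem_filter] at hP hQ
    by_contra hne
    exact Finset.disjoint_left.1 (hK.2 P hP.1 Q hQ.1 hne) hP.2 hQ.2
  exact_mod_cast this

/-- Necessity, second kind. -/
theorem core_nec2 (a : Finset V → ℤ) (o : V → ℤ) (F : Multiset (V × V))
    (h : ∀ P, NP P → a P ≤ ∑ v ∈ Pᶜ, o v - insideCount F Pᶜ)
    (K : Finset (Finset V)) (hK : DisjFam K) :
    ((K.card : ℤ) - 2) * F.card ≤ ∑ P ∈ K, (∑ v ∈ Pᶜ, o v - a P) := by
  classical
  have h1 : ∑ P ∈ K, (insideCount F Pᶜ : ℤ) ≤ ∑ P ∈ K, (∑ v ∈ Pᶜ, o v - a P) := by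
    apply Finset.sum_le_sum
    intro P hP
    have := h P (hK.1 P hP)
    omega
  refine le_trans ?_ h1
  clear h1 h
  induction F using Multiset.induction_on with
  | empty => simp [insideCount]
  | cons p F ih =>
    simp only [insideCount, Multiset.countP_cons, Multiset.card_cons, mem_compl] at ih ⊢
    push_cast
    rw [Finset.sum_add_distrib]
    have h2 : ((K.card : ℤ) - 2) ≤ ∑ P ∈ K, (if p.1 ∉ P ∧ p.2 ∉ P then (1:ℤ) else 0) := by
      have h3 := disj_count_le K hK p.1
      have h4 := disj_count_le K hK p.2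
      have h5 : (K.card : ℤ) = ∑ P ∈ K, (1:ℤ) := by simp
      have h6 : ∑ P ∈ K, (1:ℤ) ≤ ∑ P ∈ K, ((if p.1 ∉ P ∧ p.2 ∉ P then (1:ℤ) else 0)
          + (if p.1 ∈ P then (1:ℤ) else 0) + (if p.2 ∈ P then (1:ℤ) else 0)) := by
        apply Finset.sum_le_sum
        intro P _
        by_cases h1 : p.1 ∈ P <;> by_cases h2 : p.2 ∈ P <;> simp [h1, h2]
      rw [Finset.sum_add_distrib, Finset.sum_add_distrib] at h6
      omega
    linarith

/-- Necessity, first kind. -/
theorem core_nec1 (a : Finset V → ℤ) (o : V → ℤ) (F : Multiset (V × V))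
    (hF : ∀ v, (headCount F v : ℤ) ≤ o v)
    (h : ∀ P, NP P → a P ≤ ∑ v ∈ Pᶜ, o v - insideCount F Pᶜ)
    (K : Finset (Finset V)) (hK : DisjFam K) :
    ((K.card : ℤ) - 1) * F.card ≤ ∑ P ∈ K, (∑ v, o v - a P) := by
  classical
  have h1 : ∑ P ∈ K, ((insideCount F Pᶜ : ℤ) + headIn F P) ≤ ∑ P ∈ K, (∑ v, o v - a P) := by
    apply Finset.sum_le_sum
    intro P hP
    have h2 := h P (hK.1 P hP)
    have h3 : (headIn F P : ℤ) ≤ ∑ v ∈ P, o v := by
      rw [headIn_eq]
      exact Finset.sum_le_sum (fun v _ => hF v)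
    have h4 := sum_compl' o P
    omega
  refine le_trans ?_ h1
  clear h1 h hF
  induction F using Multiset.induction_on with
  | empty => simp [insideCount, headIn]
  | cons p F ih =>
    simp only [insideCount, headIn, Multiset.countP_cons, Multiset.card_cons, mem_compl] at ih ⊢
    push_cast
    have e : ∑ x ∈ K, ((Multiset.countP (fun p => p.1 ∉ x ∧ p.2 ∉ x) F : ℤ) +
        (if p.1 ∉ x ∧ p.2 ∉ x then (1:ℤ) else 0) +
        ((Multiset.countP (fun p => p.2 ∈ x) F : ℤ) + if p.2 ∈ x then (1:ℤ) else 0))
        = ∑ x ∈ K, ((Multiset.countP (fun p => p.1 ∉ x ∧ p.2 ∉ x) F : ℤ) +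
          (Multiset.countP (fun p => p.2 ∈ x) F : ℤ)) +
          ∑ x ∈ K, ((if p.1 ∉ x ∧ p.2 ∉ x then (1:ℤ) else 0) + if p.2 ∈ x then (1:ℤ) else 0) := by
      rw [← Finset.sum_add_distrib]
      apply Finset.sum_congr rfl
      intro x _
      ring
    rw [e]
    have h2 : ((K.card : ℤ) - 1) ≤
        ∑ P ∈ K, ((if p.1 ∉ P ∧ p.2 ∉ P then (1:ℤ) else 0) + if p.2 ∈ P then (1:ℤ) else 0) := by
      have h3 := disj_count_le K hK p.1
      have h5 : (K.card : ℤ) = ∑ P ∈ K, (1:ℤ) := by simp
      have h6 : ∑ P ∈ K, (1:ℤ) ≤ ∑ P ∈ K, (((if p.1 ∉ P ∧ p.2 ∉ P then (1:ℤ) else 0)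
          + (if p.2 ∈ P then (1:ℤ) else 0)) + (if p.1 ∈ P then (1:ℤ) else 0)) := by
        apply Finset.sum_le_sum
        intro P _
        by_cases h1 : p.1 ∈ P <;> by_cases h2 : p.2 ∈ P <;> simp [h1, h2]
      rw [Finset.sum_add_distrib] at h6
      omega
    linarith

end Pool.Agent.H225R2
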